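import Pool.Agent.Run7.h496.BK.Traj

/-!
# Small prime solutions of `a p + b q + c r = d`: ALL coefficients `c` along almost all trajectories of the `3 x + 1` map

The problem (Liu and Tsang, after Baker) asks for the infimum `M` of the exponents `μ` such that all admissible equations
`a p + b q + c r = d` have a solution in primes with `max (p, q, r) ≤ 3 |d| + m ^ μ`, `m = max (3, |a|, |b|, |c|)`; the conjecture is
`M = 1`. The starting result `OneLargeCoefficient` shows that for every `θ > 1` the exponent `θ` is possible for almost all large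
`|c|`, if `|a|`, `|b|` are at most powers of `log |c|`. Here the coefficients `c` are members of trajectories.

Let `q`, `c₁` be odd and coprime, `T(x) = x / 2` for even and `T(x) = (q x + c₁) / 2` for odd `x` (`q = 3`, `c₁ = 1`: the map of
Collatz). Let `θ > 1` and let `κ ≥ 0` be such that `κ log 2 < 1` and, if `θ ≤ 3 / 2`,

  `2 - θ + κ (log (1 + q ^ (2 - θ)) - (2 - θ) log 2) < 1`.

Then for all `m ≤ X` but `X / (log X) ^ A` (`A` arbitrary) the exponent `θ` is possible for ALL the coefficients `|c| = u T^k(m)`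
with `k ≤ κ log X`, `1 ≤ u ≤ (log X) ^ U`: ALL admissible equations with one of these `c`, with `|a|, |b| ≤ (log |c|) ^ T` and with
arbitrary `d` have a solution in primes with `max (p, q, r) ≤ 3 |d| + |c| ^ θ`.

For the map of Collatz the condition holds if `κ log 2 < θ - 1`: so the exponent `1 + ε` is possible for all the first
`(ε / log 2 - η) log m` members of almost all trajectories; for `θ > 3 / 2` one can take every `κ < 1 / log 2`.

Proof. By the starting files the exceptional `|c|` for the exponent `θ` are in a set with `X ^ (2 - θ + η)` elements up to `X`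
(empty if `θ > 3 / 2`), or they are multiples of a member `e > (log |c|) ^ T` of a set `D` with `X ^ η` elements up to `X`. On a
residue class `r` modulo `2^k` the map `T^k` is affine, `T^k(2^k v + r) = q^a v + T^k(r)`, with `T^k(r)` prime to `q^a`. So for
every `e` at most `u X / e + 2^k` of the `m ≤ X` have `e ∣ u T^k(m)`; the first set is treated with
`∑_r z^(a(r)) = (1 + z)^k`.
-/

set_option autoImplicit false

namespace Pool.Agent.Results.MP_3923f3_nt.CollatzTrajectories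

open Finset
open Pool.Agent.Y883.T5 (Admissible)

/-- ALL the admissible equations `a p + b q + c r = d` with `|c| = n` and `|a|, |b| ≤ (log n) ^ T` (`d` is arbitrary) have a
solution in primes with `max (p, q, r) ≤ 3 |d| + n ^ θ`. -/
def Solvable (θ : ℝ) (T n : ℕ) : Prop := ∀ a b c d : ℤ, Admissible a b c d → c.natAbs = n →
  |(a : ℝ)| ≤ Real.log n ^ T → |(b : ℝ)| ≤ Real.log n ^ T →
    ∃ p q r : ℕ, p.Prime ∧ q.Prime ∧ r.Prime ∧ a * p + b * q + c * r = d ∧
      ((max p (max q r) : ℕ) : ℝ) ≤ 3 * |(d : ℝ)| + (n : ℝ) ^ θ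

/-- the `q x + c` map, `x ↦ x / 2` for even `x` and `x ↦ (q x + c) / 2` for odd `x`; `map 3 1` is the map of Collatz -/
def map (q c x : ℕ) : ℕ := if x % 2 = 0 then x / 2 else (q * x + c) / 2

open Classical in
/-- The `m ≤ X` such that `Solvable θ T (u * T^k(m))` is false for some `k ≤ κ log X` and `1 ≤ u ≤ (log X) ^ U`. -/
noncomputable def exceptionalStarts (q c : ℕ) (θ κ : ℝ) (T U X : ℕ) : Finset ℕ :=
  (Icc 1 X).filter (fun m => ∃ k u : ℕ, (k : ℝ) ≤ κ * Real.log X ∧ 1 ≤ u ∧ (u : ℝ) ≤ Real.log X ^ U ∧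
    ¬ Solvable θ T (u * (map q c)^[k] m))

/-- the mean value inequality for the concave function `x ^ ϑ` -/
theorem concave (ϑ : ℝ) (h0 : 0 ≤ ϑ) (h1 : ϑ ≤ 1) :
    Real.log (1 + ((3 : ℕ) : ℝ) ^ ϑ) ≤ Real.log 2 + ϑ * Real.log 2 := by
  have h := (Real.concaveOn_rpow h0 h1).2 (show (1 : ℝ) ∈ Set.Ici 0 by norm_num) (show (3 : ℝ) ∈ Set.Ici 0 by norm_num)
    (show (0 : ℝ) ≤ 1 / 2 by norm_num) (show (0 : ℝ) ≤ 1 / 2 by norm_num) (by norm_num)
  simp only [smul_eq_mul] at h
  have e : (1 / 2 : ℝ) * 1 + 1 / 2 * 3 = 2 := by norm_num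
  rw [e, Real.one_rpow] at h
  have h2 : 1 + ((3 : ℕ) : ℝ) ^ ϑ ≤ 2 * (2 : ℝ) ^ ϑ := by
    push_cast
    linarith
  calc Real.log (1 + ((3 : ℕ) : ℝ) ^ ϑ) ≤ Real.log (2 * (2 : ℝ) ^ ϑ) := Real.log_le_log (by positivity) h2
    _ = Real.log 2 + ϑ * Real.log 2 := by
        rw [Real.log_mul (by norm_num) (by positivity), Real.log_rpow (by norm_num)]

/-- **Small prime solutions: coefficients along trajectories.** Part 1: the maps `q x + c`. Part 2: the map of Collatz. -/
theorem result :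
    (∀ q c : ℕ, Odd q → Odd c → Nat.Coprime c q → ∀ θ κ : ℝ, 1 < θ → 0 ≤ κ → κ * Real.log 2 < 1 →
      (3 / 2 < θ ∨ 2 - θ + κ * (Real.log (1 + (q : ℝ) ^ (2 - θ)) - (2 - θ) * Real.log 2) < 1) →
      ∀ A T U : ℕ, ∃ X₀ : ℕ, ∀ X : ℕ, X₀ ≤ X →
        ((exceptionalStarts q c θ κ T U X).card : ℝ) ≤ X / Real.log X ^ A) ∧
    (∀ θ κ : ℝ, 1 < θ → 0 ≤ κ → (κ * Real.log 2 < θ - 1 ∧ θ ≤ 2 ∨ 3 / 2 < θ ∧ κ * Real.log 2 < 1) →
      ∀ A T U : ℕ, ∃ X₀ : ℕ, ∀ X : ℕ, X₀ ≤ X →
        ((exceptionalStarts 3 1 θ κ T U X).card : ℝ) ≤ X / Real.log X ^ A) := by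
  have main : ∀ q c : ℕ, Odd q → Odd c → Nat.Coprime c q → ∀ θ κ : ℝ, 1 < θ → 0 ≤ κ → κ * Real.log 2 < 1 →
      (3 / 2 < θ ∨ 2 - θ + κ * (Real.log (1 + (q : ℝ) ^ (2 - θ)) - (2 - θ) * Real.log 2) < 1) →
      ∀ A T U : ℕ, ∃ X₀ : ℕ, ∀ X : ℕ, X₀ ≤ X →
        ((exceptionalStarts q c θ κ T U X).card : ℝ) ≤ X / Real.log X ^ A :=
    fun q c hq hc hcq θ κ hθ hκ0 hκ2 hκ A T U =>
      Pool.Agent.Run7.h496.BK.traj hq hc hcq θ κ hθ hκ0 hκ2 hκ A T U
  refine ⟨main, fun θ κ hθ hκ0 h A T U => ?_⟩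
  apply main 3 1 (by decide) (by decide) (by decide) θ κ hθ hκ0 _ _ A T U
  · rcases h with h | h
    · linarith
    · exact h.2
  · rcases h with ⟨h, h2⟩ | h
    · right
      have h3 := concave (2 - θ) (by linarith) (by linarith)
      have h4 : κ * (Real.log (1 + ((3 : ℕ) : ℝ) ^ (2 - θ)) - (2 - θ) * Real.log 2) ≤ κ * Real.log 2 :=
        mul_le_mul_of_nonneg_left (by linarith) hκ0
      linarith
    · exact Or.inl h.1

end Pool.Agent.Results.MP_3923f3_nt.CollatzTrajectories
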