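import Pool.Agent.Run7.h469.Tm
import Pool.Agent.Y883.T6.One6

/-!
# Small prime solutions of `a p + b q + c r = d`: coefficients at ALL good approximations of almost every real tuple

The problem (Liu and Tsang, after Baker) asks for the infimum `M` of the exponents `μ` such that all admissible equations
`a p + b q + c r = d` have a solution in primes with `max (p, q, r) ≤ 3 |d| + m ^ μ`, `m = max (3, |a|, |b|, |c|)`; the conjecture is
`M = 1`. The starting result `OneLargeCoefficient` shows that the exponent `1 + ε` is possible for almost all `|c|`, if `|a|`, `|b|`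
are at most powers of `log |c|`. Here the coefficients `c` come from rational approximations.

Let `d ≥ 1`. For almost every `α` in `ℝ^d`, for all `W`, `T` and `ε > 0`, the following holds for ALL integer vectors
`(P_1, …, P_d, Q)`, `Q ≥ 1`, with `|α_i - P_i / Q| ≤ (log Q)^W / Q^(1 + 1/d)` for all `i`, with finitely many exceptions: for ALL
integers `n > 0` at a distance of at most `(log Q)^W` from one of the integers `u_1 P_1 + … + u_d P_d + v Q`, `(u, v) ≠ (0, 0)`,
`|u_i|, |v| ≤ (log Q)^W`, ALL admissible equations `a p + b q + c r = e` with `|c| = n`, `|a|, |b| ≤ (log n)^T` and arbitrary `e`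
have a solution in primes with `max (p, q, r) ≤ 3 |e| + m ^ (1 + ε)`: the conjectured exponent. For `d = 1` this applies to
the numerators and denominators of all the convergents of the continued fraction of almost every real number, to the
integers near their sums, differences, and so on.

Definitions used: from `Run7/h469/Tm` (helper469): `GoodApproximation d W α P Q`, `Near W P Q n`; from the starting files:
`Admissible` and `SmallSolution μ a b c d` (the inequality of the problem for the exponent `μ`).

Proof. The theorem of helper469 on good approximations and thin exceptional sets, with the starting result.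
-/

set_option autoImplicit false

namespace Pool.Agent.Results.MP_3923f3_nt.GoodApproximations

open Finset MeasureTheory
open Pool.Agent.Y883.T5 (Admissible)
open Pool.Agent.Y883.T6 (SmallSolution)
open _root_.Run7.h469.Tm (GoodApproximation Near)

/-- ALL the admissible equations `a p + b q + c r = d` with `|c| = n` and `|a|, |b| ≤ (log n) ^ T` (`d` is arbitrary) have a
solution in primes with `max (p, q, r) ≤ 3 |d| + max (3, |a|, |b|, |c|) ^ μ`. -/
def Solvable (μ : ℝ) (T n : ℕ) : Prop := ∀ a b c d : ℤ, Admissible a b c d → c.natAbs = n →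
  |(a : ℝ)| ≤ Real.log n ^ T → |(b : ℝ)| ≤ Real.log n ^ T → SmallSolution μ a b c d

theorem thin (ε : ℝ) (hε : 0 < ε) (T : ℕ) : _root_.Run7.h469.GA.Thin (Solvable (1 + ε) T) := by
  classical
  intro A
  obtain ⟨D, h1, -, h3⟩ := Pool.Agent.Y883.T6.one6
  obtain ⟨X₀, h⟩ := Pool.Agent.Y883.T6.one_dens6 h1 h3 ε hε A T
  refine ⟨X₀, fun X hX => le_trans ?_ (h X hX)⟩
  apply Nat.cast_le.2
  apply card_le_card
  intro n hn
  obtain ⟨h4, h5⟩ := (@mem_filter ℕ _ (_) _ _).1 hn
  refine (@mem_filter ℕ _ (_) _ _).2 ⟨h4, fun h6 => h5 ?_⟩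
  intro a b c d hadm hcn ha hb
  have hnr : |(c : ℝ)| = (n : ℝ) := by
    rw [← hcn, Nat.cast_natAbs]
    push_cast
    rfl
  exact h6 a b c d hadm hcn (by rw [hnr]; exact ha) (by rw [hnr]; exact hb)

theorem mono {μ ν : ℝ} (h : μ ≤ ν) {T n : ℕ} (hs : Solvable μ T n) : Solvable ν T n := by
  intro a b c d h1 h2 h3 h4
  obtain ⟨p, q, r, s1, s2, s3, s4, s5⟩ := hs a b c d h1 h2 h3 h4
  refine ⟨p, q, r, s1, s2, s3, s4, s5.trans ?_⟩
  have h6 : (1 : ℝ) ≤ ((max 3 (max |a| (max |b| |c|)) : ℤ) : ℝ) := by
    have : (3 : ℤ) ≤ max 3 (max |a| (max |b| |c|)) := le_max_left _ _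
    exact_mod_cast (by omega : (1 : ℤ) ≤ max 3 (max |a| (max |b| |c|)))
  have := Real.rpow_le_rpow_of_exponent_le h6 h
  linarith

/-- **Small prime solutions: coefficients near small combinations of the numerators and denominators of all good
approximations of almost every real tuple.** -/
theorem result (d : ℕ) (hd : 1 ≤ d) : ∀ᵐ α : Fin d → ℝ, ∀ (W T : ℕ) (ε : ℝ), 0 < ε →
    {z : (Fin d → ℤ) × ℕ | GoodApproximation d W α z.1 z.2 ∧ ∃ n : ℕ, Near W z.1 z.2 n ∧
      ¬ Solvable (1 + ε) T n}.Finite := by
  have h1 : ∀ᵐ α : Fin d → ℝ, ∀ (W T k : ℕ),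
      {z : (Fin d → ℤ) × ℕ | GoodApproximation d W α z.1 z.2 ∧ ∃ n : ℕ, Near W z.1 z.2 n ∧
        ¬ Solvable (1 + 1 / ((k : ℝ) + 1)) T n}.Finite := by
    rw [ae_all_iff]
    intro W
    rw [ae_all_iff]
    intro T
    rw [ae_all_iff]
    intro k
    exact _root_.Run7.h469.Tm.approximations _ (thin _ (by positivity) T) d W hd
  filter_upwards [h1] with α hα W T ε hε
  obtain ⟨k, hk⟩ := exists_nat_one_div_lt hε
  refine (hα W T k).subset ?_
  rintro z ⟨h2, n, h3, h4⟩
  exact ⟨h2, n, h3, fun h5 => h4 (mono (by linarith) h5)⟩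

end Pool.Agent.Results.MP_3923f3_nt.GoodApproximations
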