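import Pool.Agent.Run7.h496.BK.Rec

/-!
# Small prime solutions of `a p + b q + c r = d`: ALL coefficients `c` along almost all linear recurrences

The problem (Liu and Tsang, after Baker) asks for the infimum `M` of the exponents `μ` such that all admissible equations
`a p + b q + c r = d` have a solution in primes with `max (p, q, r) ≤ 3 |d| + m ^ μ`, `m = max (3, |a|, |b|, |c|)`; the conjecture is
`M = 1`. The starting result `OneLargeCoefficient` shows that for every `θ > 1` the exponent `θ` is possible for almost all large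
`|c|`, if `|a|`, `|b|` are at most powers of `log |c|`. Here the coefficients `c` are members of recurrence sequences.

Let `s`, `t` be coprime positive integers, `x_0 = a₀`, `x_1 = b₀`, `x_(n + 2) = s x_(n + 1) + t x_n` (`s = t = 1`: generalised
Fibonacci sequences). Let `θ > 1` and `κ ≥ 0`, where `κ < 2 / (2 - θ)` if `θ ≤ 3 / 2`. For all pairs `a₀, b₀ ≤ X` but
`X ^ 2 / (log X) ^ A` (`A` arbitrary) the exponent `θ` is possible for ALL the coefficients `|c| = u x_n` with `x_n ≤ X ^ κ`,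
`1 ≤ u ≤ (log X) ^ U`: ALL admissible equations with one of these `c`, with `|a|, |b| ≤ (log |c|) ^ T` and with arbitrary `d` have a
solution in primes with `max (p, q, r) ≤ 3 |d| + |c| ^ θ`. So the exponent `1 + ε` is possible for all members up to `X ^ 2`,
the exponent `4 / 3` up to `X ^ (3 - η)`, the exponent `3 / 2` up to `X ^ (4 - η)`, and every exponent larger than `3 / 2` up to
every power of `X`.

Proof. By the starting files the exceptional `|c|` for the exponent `θ` are in a set with `X ^ (2 - θ + η)` elements up to `X`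
(empty if `θ > 3 / 2`), or they are multiples of a member `e > (log |c|) ^ T` of a set `D` with `X ^ η` elements up to `X`. A
member `x_n = α a₀ + β b₀`, `(α, β) = 1`, takes a given value for at most `X / β + 1` pairs, and `u x_n` is a multiple
of `e` for at most `u X ^ 2 / e + X` pairs.
-/

set_option autoImplicit false

namespace Pool.Agent.Results.MP_3923f3_nt.LinearRecurrences

open Finset
open Pool.Agent.Y883.T5 (Admissible)

/-- ALL the admissible equations `a p + b q + c r = d` with `|c| = n` and `|a|, |b| ≤ (log n) ^ T` (`d` is arbitrary) have a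
solution in primes with `max (p, q, r) ≤ 3 |d| + n ^ θ`. -/
def Solvable (θ : ℝ) (T n : ℕ) : Prop := ∀ a b c d : ℤ, Admissible a b c d → c.natAbs = n →
  |(a : ℝ)| ≤ Real.log n ^ T → |(b : ℝ)| ≤ Real.log n ^ T →
    ∃ p q r : ℕ, p.Prime ∧ q.Prime ∧ r.Prime ∧ a * p + b * q + c * r = d ∧
      ((max p (max q r) : ℕ) : ℝ) ≤ 3 * |(d : ℝ)| + (n : ℝ) ^ θ

/-- the sequence with `x_0 = a`, `x_1 = b`, `x_(n+2) = s x_(n+1) + t x_n` -/
def seq (s t a b : ℕ) : ℕ → ℕ
  | 0 => a
  | 1 => b
  | n + 2 => s * seq s t a b (n + 1) + t * seq s t a b n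

open Classical in
/-- The pairs `(a, b)` in `[1, X]^2` such that for some member `x_n ≤ X ^ κ` of the sequence and some `1 ≤ u ≤ (log X) ^ U`
`Solvable θ T (u x_n)` is false. -/
noncomputable def exceptionalPairs (s t : ℕ) (θ κ : ℝ) (T U X : ℕ) : Finset (ℕ × ℕ) :=
  (Icc 1 X ×ˢ Icc 1 X).filter (fun z => ∃ n u : ℕ, (seq s t z.1 z.2 n : ℝ) ≤ (X : ℝ) ^ κ ∧
    1 ≤ u ∧ (u : ℝ) ≤ Real.log X ^ U ∧ ¬ Solvable θ T (u * seq s t z.1 z.2 n))

theorem seq_eq (s t a b : ℕ) : ∀ n, seq s t a b n = _root_.Run7.h469.LF.seq s t a b n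
  | 0 => rfl
  | 1 => rfl
  | n + 2 => by rw [seq, _root_.Run7.h469.LF.seq, seq_eq s t a b n, seq_eq s t a b (n + 1)]

/-- **Small prime solutions: coefficients along recurrences.** -/
theorem result (s t : ℕ) (hs : 1 ≤ s) (ht : 1 ≤ t) (hst : Nat.Coprime s t) (θ κ : ℝ) (hθ : 1 < θ) (hκ0 : 0 ≤ κ)
    (hκ : 3 / 2 < θ ∨ κ * (2 - θ) < 2) (A T U : ℕ) : ∃ X₀ : ℕ, ∀ X : ℕ, X₀ ≤ X →
      ((exceptionalPairs s t θ κ T U X).card : ℝ) ≤ (X : ℝ) ^ 2 / Real.log X ^ A := by
  obtain ⟨X₀, h⟩ := Pool.Agent.Run7.h496.BK.recs hs ht hst θ κ hθ hκ0 hκ A T U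
  refine ⟨X₀, fun X hX => ?_⟩
  refine le_trans ?_ (h X hX)
  apply Nat.cast_le.2
  apply card_le_card
  intro z hz
  obtain ⟨h1, n, u, h2, h3, h4, h5⟩ := (@mem_filter (ℕ × ℕ) _ (_) _ _).1 hz
  refine (@mem_filter (ℕ × ℕ) _ (_) _ _).2 ?_
  rw [seq_eq] at h2 h5
  exact ⟨h1, n, u, h2, h3, h4, h5⟩

end Pool.Agent.Results.MP_3923f3_nt.LinearRecurrences
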