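import Mathlib

/-!
# Baker's constant for prime solutions of `a p + b q + c r = d` is at least `log 13 / log 3 > 7 / 3`

The problem (after Liu and Tsang) calls a real number `μ` good if EVERY admissible equation `a p + b q + c r = d` has a
solution in primes with `max(p, q, r) ≤ 3 |d| + m ^ μ`, `m = max(3, |a|, |b|, |c|)`: there is no implied constant and no
restriction to large coefficients. The constant `M` of Baker is the infimum of the good numbers; the known bounds are
`1 ≤ M ≤ 45`, and `M = 1` is the conjecture.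

We show that every good number is at least `log 13 / log 3 = 2.334...`: the admissible equation `2 p + 3 q - r = 0`
has `m = 3`, `d = 0`, and each of its solutions in primes has `r ≥ 13` (and `2 * 2 + 3 * 3 = 13` is one). So the
conjecture `M = 1` fails for the constant as it is defined. The example says nothing about large coefficients.
-/

set_option autoImplicit false

namespace Pool.Agent.Results.MP_3923f3_nt.LowerBoundLogThirteen

/-- Admissible quadruples: `a`, `b`, `c` are nonzero and not all of the same sign, `a + b + c - d` is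
even, and each of `gcd(a, b, c)`, `gcd(d, a, b)`, `gcd(d, a, c)`, `gcd(d, b, c)` equals `1`. -/
structure Admissible (a b c d : ℤ) : Prop where
  a_ne : a ≠ 0
  b_ne : b ≠ 0
  c_ne : c ≠ 0
  not_pos : ¬ (0 < a ∧ 0 < b ∧ 0 < c)
  not_neg : ¬ (a < 0 ∧ b < 0 ∧ c < 0)
  even : Even (a + b + c - d)
  gcd_abc : Int.gcd (Int.gcd a b) c = 1
  gcd_dab : Int.gcd (Int.gcd d a) b = 1
  gcd_dac : Int.gcd (Int.gcd d a) c = 1
  gcd_dbc : Int.gcd (Int.gcd d b) c = 1

/-- The equation `a p + b q + c r = d` has a solution in primes with `max(p, q, r) ≤ 3 |d| + m ^ μ`,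
`m = max(3, |a|, |b|, |c|)`. -/
def SmallSolution (μ : ℝ) (a b c d : ℤ) : Prop :=
  ∃ p q r : ℕ, p.Prime ∧ q.Prime ∧ r.Prime ∧ a * p + b * q + c * r = d ∧
    ((max p (max q r) : ℕ) : ℝ) ≤ 3 * |(d : ℝ)| + ((max 3 (max |a| (max |b| |c|)) : ℤ) : ℝ) ^ μ

/-- `μ` is good. -/
def Good (μ : ℝ) : Prop := ∀ a b c d : ℤ, Admissible a b c d → SmallSolution μ a b c d

lemma adm : Admissible 2 3 (-1) 0 where
  a_ne := by norm_num
  b_ne := by norm_num
  c_ne := by norm_num
  not_pos := by norm_num
  not_neg := by norm_num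
  even := by decide
  gcd_abc := by decide
  gcd_dab := by decide
  gcd_dac := by decide
  gcd_dbc := by decide

lemma thirteen {p q r : ℕ} (hp : p.Prime) (hq : q.Prime) (hr : r.Prime) (h : 2 * p + 3 * q = r) : 13 ≤ r := by
  have hp2 := hp.two_le
  have hq2 := hq.two_le
  by_contra hlt
  push Not at hlt
  have hq3 : q = 2 ∨ q = 3 ∨ 4 ≤ q := by omega
  rcases hq3 with h2 | h2 | h2
  · -- `r` is even
    subst h2
    have hd : 2 ∣ r := ⟨p + 3, by omega⟩
    have := (Nat.prime_dvd_prime_iff_eq Nat.prime_two hr).1 hd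
    omega
  · omega
  · omega

/-- **Baker's constant is at least `log 13 / log 3`.** -/
theorem result :
    (∀ μ : ℝ, Good μ → Real.log 13 / Real.log 3 ≤ μ) ∧
    (7 / 3 : ℝ) < Real.log 13 / Real.log 3 ∧
    (∀ M : ℝ, IsGLB {μ : ℝ | Good μ} M → Real.log 13 / Real.log 3 ≤ M) ∧
    ¬ IsGLB {μ : ℝ | Good μ} 1 := by
  have key : ∀ μ : ℝ, Good μ → Real.log 13 / Real.log 3 ≤ μ := by
    intro μ hμ
    obtain ⟨p, q, r, hp, hq, hr, he, hle⟩ := hμ 2 3 (-1) 0 adm
    have he' : 2 * p + 3 * q = r := by
      have : (2 * (p : ℤ) + 3 * q) = r := by linarith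
      exact_mod_cast this
    have h13 := thirteen hp hq hr he'
    have hm : ((max 3 (max |(2 : ℤ)| (max |3| |(-1)|)) : ℤ) : ℝ) = 3 := by
      norm_num
    rw [hm] at hle
    simp only [Int.cast_zero, abs_zero, mul_zero, zero_add] at hle
    have h1 : (13 : ℝ) ≤ ((max p (max q r) : ℕ) : ℝ) := by
      have : 13 ≤ max p (max q r) := by omega
      exact_mod_cast this
    have h2 : (13 : ℝ) ≤ (3 : ℝ) ^ μ := h1.trans hle
    have h3 := Real.log_le_log (by norm_num) h2
    rw [Real.log_rpow (by norm_num)] at h3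
    have h4 : 0 < Real.log 3 := Real.log_pos (by norm_num)
    rwa [div_le_iff₀ h4]
  have h73 : (7 / 3 : ℝ) < Real.log 13 / Real.log 3 := by
    have h4 : 0 < Real.log 3 := Real.log_pos (by norm_num)
    rw [lt_div_iff₀ h4]
    have h5 : Real.log ((3 : ℝ) ^ 7) < Real.log ((13 : ℝ) ^ 3) := Real.log_lt_log (by norm_num) (by norm_num)
    rw [Real.log_pow, Real.log_pow] at h5
    push_cast at h5
    linarith
  refine ⟨key, h73, fun M hM => hM.2 (fun μ hμ => key μ hμ), fun hM => ?_⟩
  have := hM.2 (show (7 / 3 : ℝ) ∈ lowerBounds {μ : ℝ | Good μ} from fun μ hμ => h73.le.trans (key μ hμ))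
  linarith

end Pool.Agent.Results.MP_3923f3_nt.LowerBoundLogThirteen
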